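import Pool.Agent.Helper58_MOO.Stmts

/-!
# Squad MOO, module DKD (helper20): density of high nodes and of high models
-/

open Cardinal
open Pool.Agent.Helper69_LOTS

namespace Pool.Agent.MOO.H20

open Node

theorem tr_insert [DecidableEq Node] (X : Finset Node) (x : Node) (δ : Om) (h : δ ≤ x.ht) :
    tr ((insert x X : Finset Node) : Set Node) δ = tr (X : Set Node) δ ∪ {x.res δ} := by
  ext s
  constructor
  · rintro ⟨y, hy, h1, rfl⟩
    rcases Finset.mem_insert.1 (Finset.mem_coe.1 hy) with rfl | hy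
    · exact Or.inr rfl
    · exact Or.inl ⟨y, Finset.mem_coe.2 hy, h1, rfl⟩
  · rintro (⟨y, hy, h1, rfl⟩ | hs)
    · exact ⟨y, Finset.mem_coe.2 (Finset.mem_insert_of_mem (Finset.mem_coe.1 hy)), h1, rfl⟩
    · exact ⟨x, Finset.mem_coe.2 (Finset.mem_insert_self _ _), h, hs⟩

theorem exists_root {T : Set Node} (hT : Coh T) : ∃ x ∈ T, ∀ β : Om, x.ht ≤ β := by
  obtain ⟨t, ht⟩ := hT.ne
  obtain ⟨ξ, -, h2⟩ := Om_least (p := fun _ => True) ⟨Classical.arbitrary Om, trivial⟩
  refine ⟨t.res ξ, hT.down t ht ξ, fun β => ?_⟩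
  rw [res_ht]
  exact (min_le_left _ _).trans (not_lt.1 (fun h => h2 β h trivial))

theorem climb {T K : Set Node} {A : Om → Set Node} {C C₀ : Set Om}
    {c : Set (Set Om) → Set Om} (hT : Coh T) (hL : ListOK T K A C) (hC₀ : C₀ ⊆ C)
    (hup : ∀ δ ∈ C₀, ∀ x ∈ T, x.ht < δ → ∀ Y, Acc T K A δ Y →
      ∃ z ∈ T, x ≤ z ∧ z.ht = δ ∧ Acc T K A δ (Y ∪ {z}))
    (p : DK T K A C₀ c) (s : Finset (Set (Set Om))) :
    s ⊆ p.N → ∃ x ∈ T, (∀ M ∈ s, dlt M ≤ x.ht ∧
      Acc T K A (dlt M) (tr (p.X : Set Node) (dlt M) ∪ {x.res (dlt M)})) ∧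
      ∀ β, (∃ ξ, ξ < β) → (∀ M ∈ s, dlt M < β) → x.ht < β := by
  classical
  induction s using Finset.induction_on_max_value dlt with
  | empty =>
    intro _
    obtain ⟨x, hx, hx'⟩ := exists_root hT
    refine ⟨x, hx, fun M hM => absurd hM (Finset.notMem_empty M), ?_⟩
    rintro β ⟨ξ, hξ⟩ -
    exact (hx' ξ).trans_lt hξ
  | insert a s ha hmax ih =>
    intro hs
    have haN : a ∈ p.N := hs (Finset.mem_insert_self _ _)
    have hsN : s ⊆ p.N := fun M hM => hs (Finset.mem_insert_of_mem hM)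
    obtain ⟨x, hx, h1, h2⟩ := ih hsN
    have hga := p.gd a haN
    have hlim := hL.lim (dlt a) (hC₀ hga.mem)
    have hlt : ∀ M ∈ s, dlt M < dlt a := by
      intro M hM
      have hne : M ≠ a := fun h => ha (h ▸ hM)
      rcases p.ch M (hsN hM) a haN hne with h | h
      · exact h.2.2
      · exact absurd h.2.2 (not_lt.2 (hmax M hM))
    have hxa : x.ht < dlt a := h2 (dlt a) hlim.1 hlt
    obtain ⟨z, hz, hxz, hzt, hacc⟩ := hup (dlt a) hga.mem x hx hxa _ (p.acc a haN)
    refine ⟨z, hz, ?_, ?_⟩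
    · intro M hM
      rcases Finset.mem_insert.1 hM with rfl | hM
      · refine ⟨hzt.ge, ?_⟩
        rw [res_of_le hzt.le]
        exact hacc
      · obtain ⟨h3, h4⟩ := h1 M hM
        refine ⟨h3.trans hxz.1, ?_⟩
        rw [res_eq_of_le hxz h3]
        exact h4
    · intro β _ h5
      rw [hzt]
      exact h5 a (Finset.mem_insert_self _ _)

theorem dkd (hG : GdmStmt) : DkdStmt := by
  classical
  intro T K A C C₀ c hT hL hA hclb hC₀ _ hup
  constructor
  · intro α p
    obtain ⟨x, hx, h1, -⟩ := climb hT hL hC₀ hup p p.N (Finset.Subset.refl _)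
    obtain ⟨y, hy, hxy, hyt⟩ := hT.ext x hx (max α x.ht) (le_max_right _ _)
    refine ⟨⟨insert y p.X, p.N, ?_, p.gd, p.ch, ?_⟩, ⟨y, Finset.mem_insert_self _ _, ?_⟩, ?_⟩
    · intro w hw
      rcases Finset.mem_insert.1 hw with rfl | hw
      · exact hy
      · exact p.hX w hw
    · intro M hM
      obtain ⟨h3, h4⟩ := h1 M hM
      rw [tr_insert p.X y (dlt M) (h3.trans hxy.1), res_eq_of_le hxy h3]
      exact h4
    · rw [hyt]
      exact le_max_left _ _
    · exact ⟨Finset.subset_insert _ _, Finset.Subset.refl _⟩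
  · intro α p
    have hcount : ((⋃ M ∈ p.N, M) ∪ (c '' (p.N : Set (Set (Set Om)))) ∪
        ((fun ξ : Om => ({ξ} : Set Om)) '' ({α} ∪ ((fun x : Node => x.ht) '' (p.X : Set Node)) ∪
          (dlt '' (p.N : Set (Set (Set Om))))))).Countable := by
      refine Set.Countable.union (Set.Countable.union ?_ ?_) ?_
      · exact (p.N.countable_toSet).biUnion (fun M hM => (p.gd M hM).cnt)
      · exact (p.N.countable_toSet).image _
      · refine Set.Countable.image ?_ _
        exact (((Set.countable_singleton α).union ((p.X.countable_toSet).image _)).union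
          ((p.N.countable_toSet).image _))
    obtain ⟨N, hN, hNc, hgd⟩ := (hG C₀ hclb).exists_ge _ hcount
    have hlt : ∀ ξ ∈ ({α} ∪ ((fun x : Node => x.ht) '' (p.X : Set Node)) ∪
          (dlt '' (p.N : Set (Set (Set Om))))), ξ < dlt N := fun ξ hξ =>
      (hgd.tr ξ).1 (hN (Or.inr ⟨ξ, hξ, rfl⟩))
    have hprec : ∀ M ∈ p.N, Prec c M N := by
      intro M hM
      refine ⟨?_, ?_, ?_⟩
      · intro a ha
        exact hN (Or.inl (Or.inl (Set.mem_biUnion hM ha)))
      · exact hN (Or.inl (Or.inr ⟨M, hM, rfl⟩))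
      · exact hlt _ (Or.inr ⟨M, hM, rfl⟩)
    refine ⟨⟨p.X, insert N p.N, p.hX, ?_, ?_, ?_⟩, ⟨N, Finset.mem_insert_self _ _, ?_⟩, ?_⟩
    · intro M hM
      rcases Finset.mem_insert.1 hM with rfl | hM
      · exact hgd
      · exact p.gd M hM
    · intro M hM M' hM' hne
      rcases Finset.mem_insert.1 hM with h1 | h1
      · rcases Finset.mem_insert.1 hM' with h2 | h2
        · exact absurd (h1.trans h2.symm) hne
        · rw [h1]
          exact Or.inr (hprec M' h2)
      · rcases Finset.mem_insert.1 hM' with h2 | h2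
        · rw [h2]
          exact Or.inl (hprec M h1)
        · exact p.ch M h1 M' h2 hne
    · intro M hM
      rcases Finset.mem_insert.1 hM with rfl | hM
      · have h0 : tr (p.X : Set Node) (dlt M) = ∅ := by
          ext s
          constructor
          · rintro ⟨y, hy, h1, rfl⟩
            exact absurd (hlt y.ht (Or.inl (Or.inr ⟨y, hy, rfl⟩))) (not_lt.2 h1)
          · intro h
            exact absurd h (Set.notMem_empty s)
        rw [h0]
        exact hA.empty _ (hC₀ hgd.mem)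
      · exact p.acc M hM
    · exact hlt α (Or.inl (Or.inl rfl))
    · exact ⟨Finset.Subset.refl _, Finset.subset_insert _ _⟩

end Pool.Agent.MOO.H20
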