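import Pool.Agent.Helper58_MOO.Stmts

/-!
# Squad MOO, module RCD (helper20): reduction to two-sided condensation points
-/

open Cardinal
open Pool.Agent.Helper69_LOTS

namespace Pool.Agent.MOO.H20

open Set

/-- The left bad points of `Z`. -/
def LB (Z : Set ℝ) : Set ℝ := {y | y ∈ Z ∧ ∃ a : ℚ, (a : ℝ) < y ∧ (Z ∩ Ioo (a : ℝ) y).Countable}

/-- The right bad points of `Z`. -/
def RB (Z : Set ℝ) : Set ℝ := {y | y ∈ Z ∧ ∃ b : ℚ, y < (b : ℝ) ∧ (Z ∩ Ioo y (b : ℝ)).Countable}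

theorem LB_countable (Z : Set ℝ) : (LB Z).Countable := by
  let B : ℚ → Set ℝ := fun a => {y | y ∈ Z ∧ (a : ℝ) < y ∧ (Z ∩ Ioo (a : ℝ) y).Countable}
  have h1 : LB Z ⊆ ⋃ a : ℚ, ({y | y ∈ B a ∧ ∀ z ∈ B a, z ≤ y} ∪
      ⋃ q ∈ {q : ℚ | (Z ∩ Ioo (a : ℝ) (q : ℝ)).Countable}, (Z ∩ Ioo (a : ℝ) (q : ℝ))) := by
    rintro y ⟨hy, a, ha, hc⟩
    refine mem_iUnion.2 ⟨a, ?_⟩
    by_cases hm : ∀ z ∈ B a, z ≤ y
    · exact Or.inl ⟨⟨hy, ha, hc⟩, hm⟩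
    · right
      push Not at hm
      obtain ⟨z, ⟨hz, hz1, hz2⟩, hyz⟩ := hm
      obtain ⟨q, hq1, hq2⟩ := exists_rat_btwn hyz
      have hmem : (Z ∩ Ioo (a : ℝ) (q : ℝ)).Countable :=
        Set.Countable.mono (s₂ := Z ∩ Ioo (a : ℝ) z)
          (fun x hx => ⟨hx.1, hx.2.1, lt_trans hx.2.2 hq2⟩) hz2
      have hy2 : y ∈ Z ∩ Ioo (a : ℝ) (q : ℝ) := ⟨hy, ha, hq1⟩
      exact mem_biUnion (show q ∈ {q : ℚ | (Z ∩ Ioo (a : ℝ) (q : ℝ)).Countable} from hmem) hy2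
  refine (countable_iUnion (fun a => ?_)).mono h1
  refine Countable.union ?_ ?_
  · refine Set.Subsingleton.countable ?_
    intro y hy z hz
    exact le_antisymm (hz.2 y hy.1) (hy.2 z hz.1)
  · exact (to_countable _).biUnion (fun q hq => hq)

theorem RB_countable (Z : Set ℝ) : (RB Z).Countable := by
  let B : ℚ → Set ℝ := fun b => {y | y ∈ Z ∧ y < (b : ℝ) ∧ (Z ∩ Ioo y (b : ℝ)).Countable}
  have h1 : RB Z ⊆ ⋃ b : ℚ, ({y | y ∈ B b ∧ ∀ z ∈ B b, y ≤ z} ∪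
      ⋃ q ∈ {q : ℚ | (Z ∩ Ioo (q : ℝ) (b : ℝ)).Countable}, (Z ∩ Ioo (q : ℝ) (b : ℝ))) := by
    rintro y ⟨hy, b, hb, hc⟩
    refine mem_iUnion.2 ⟨b, ?_⟩
    by_cases hm : ∀ z ∈ B b, y ≤ z
    · exact Or.inl ⟨⟨hy, hb, hc⟩, hm⟩
    · right
      push Not at hm
      obtain ⟨z, ⟨hz, hz1, hz2⟩, hyz⟩ := hm
      obtain ⟨q, hq1, hq2⟩ := exists_rat_btwn hyz
      have hmem : (Z ∩ Ioo (q : ℝ) (b : ℝ)).Countable :=
        Set.Countable.mono (s₂ := Z ∩ Ioo z (b : ℝ))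
          (fun x hx => ⟨hx.1, lt_trans hq1 hx.2.1, hx.2.2⟩) hz2
      have hy2 : y ∈ Z ∩ Ioo (q : ℝ) (b : ℝ) := ⟨hy, hq2, hb⟩
      exact mem_biUnion (show q ∈ {q : ℚ | (Z ∩ Ioo (q : ℝ) (b : ℝ)).Countable} from hmem) hy2
  refine (countable_iUnion (fun a => ?_)).mono h1
  refine Countable.union ?_ ?_
  · refine Set.Subsingleton.countable ?_
    intro y hy z hz
    exact le_antisymm (hy.2 z hz.1) (hz.2 y hy.1)
  · exact (to_countable _).biUnion (fun q hq => hq)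

theorem aleph1_le {Y : Set ℝ} (hY : ¬ Y.Countable) : ℵ₁ ≤ #Y := by
  rw [← Cardinal.succ_aleph0]
  refine Order.succ_le_of_lt ?_
  rw [← not_le, Cardinal.le_aleph0_iff_set_countable]
  exact hY

theorem rcd : RcdStmt := by
  intro Y hY
  obtain ⟨Y', hsub, hcard⟩ := Cardinal.le_mk_iff_exists_subset.1 (aleph1_le hY)
  have hY' : ¬ Y'.Countable := by
    intro h
    rw [← Cardinal.le_aleph0_iff_set_countable, hcard] at h
    exact absurd h (not_le.2 Cardinal.aleph0_lt_aleph_one)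
  set Y2 : Set ℝ := Y' \ (LB Y' ∪ RB Y') with hY2
  have hbad : (LB Y' ∪ RB Y').Countable := (LB_countable Y').union (RB_countable Y')
  have hcov : ∀ S : Set ℝ, (Y2 ∩ S).Countable → (Y' ∩ S).Countable := by
    intro S hS
    refine (hS.union hbad).mono ?_
    rintro x ⟨hx, hxS⟩
    by_cases h : x ∈ LB Y' ∪ RB Y'
    · exact Or.inr h
    · exact Or.inl ⟨⟨hx, h⟩, hxS⟩
  have hY2c : ¬ Y2.Countable := by
    intro h
    apply hY'
    have := hcov univ (h.mono inter_subset_left)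
    rwa [inter_univ] at this
  have hcard2 : #Y2 = ℵ₁ := by
    refine le_antisymm ?_ (aleph1_le hY2c)
    rw [← hcard]
    exact Cardinal.mk_le_mk_of_subset sdiff_subset
  obtain ⟨e⟩ := Cardinal.eq.1 (mk_Om.trans hcard2.symm)
  have hrange : ∀ x ∈ Y2, ∃ α, (e α : ℝ) = x := fun x hx =>
    ⟨e.symm ⟨x, hx⟩, by rw [Equiv.apply_symm_apply]⟩
  refine ⟨fun α => (e α : ℝ), fun α β h => e.injective (Subtype.ext h),
    fun α => hsub (e α).2.1, ?_⟩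
  intro β a b ha hb
  have hβ := (e β).2
  constructor
  · intro hc
    apply hβ.2
    left
    refine ⟨hβ.1, a, ha, hcov _ ?_⟩
    refine (hc.image (fun α => (e α : ℝ))).mono ?_
    rintro x ⟨hx, hx1, hx2⟩
    obtain ⟨α, rfl⟩ := hrange x hx
    exact ⟨α, ⟨hx1, hx2⟩, rfl⟩
  · intro hc
    apply hβ.2
    right
    refine ⟨hβ.1, b, hb, hcov _ ?_⟩
    refine (hc.image (fun α => (e α : ℝ))).mono ?_
    rintro x ⟨hx, hx1, hx2⟩
    obtain ⟨α, rfl⟩ := hrange x hx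
    exact ⟨α, ⟨hx1, hx2⟩, rfl⟩

end Pool.Agent.MOO.H20
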